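import Mathlib

/-!
# Decision trees over real features

`C` a type of configurations, `ft c s : ℝ` the numbered features, `Q c a b` the numbered predicates (family `a`, number `b`).
An atom is `ft c s ≤ t - 20`, `t - 20 ≤ ft c s` (`t` a natural number) or a predicate. A disjunction `k` has premises
`(dj k).1` and alternatives `(dj k).2`, all lists of atoms.
-/

set_option autoImplicit false

namespace Pool.Agent.Helper53.NE

/-- the atoms -/
inductive Atom where
  | up (s t : ℕ)
  | lw (s t : ℕ)
  | pr (a b : ℕ)

/-- the meaning of the atoms -/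
structure Sem (C : Type) where
  ft : C → ℕ → ℝ
  Q : C → ℕ → ℕ → Prop

section

variable {C : Type}

/-- the atom holds -/
def Atom.Holds (S : Sem C) (c : C) : Atom → Prop
  | .up s t => S.ft c s ≤ (t : ℝ) - 20
  | .lw s t => (t : ℝ) - 20 ≤ S.ft c s
  | .pr a b => S.Q c a b

/-- all atoms of the list hold -/
def Hs (S : Sem C) (c : C) : List Atom → Prop
  | [] => True
  | a :: l => a.Holds S c ∧ Hs S c l

/-- some alternative holds -/
def Ex (S : Sem C) (c : C) : List (List Atom) → Prop
  | [] => False
  | a :: l => Hs S c a ∨ Ex S c l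

variable {S : Sem C} {c : C}

theorem Hs.mem : ∀ {l : List Atom}, Hs S c l → ∀ a ∈ l, a.Holds S c
  | [], _, _, h => absurd h List.not_mem_nil
  | b :: l, h, a, ha => by
    rcases List.mem_cons.1 ha with rfl | ha
    · exact h.1
    · exact Hs.mem h.2 a ha

theorem Hs.of_mem : ∀ {l : List Atom}, (∀ a ∈ l, a.Holds S c) → Hs S c l
  | [], _ => trivial
  | b :: l, h => ⟨h b List.mem_cons_self, Hs.of_mem fun a ha => h a (List.mem_cons_of_mem _ ha)⟩

theorem hs_iff {l : List Atom} : Hs S c l ↔ ∀ a ∈ l, a.Holds S c := ⟨Hs.mem, Hs.of_mem⟩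

theorem Hs.append {l l' : List Atom} (h : Hs S c l) (h' : Hs S c l') : Hs S c (l ++ l') :=
  Hs.of_mem fun a ha => (List.mem_append.1 ha).elim (h.mem a) (h'.mem a)

end

/-! ### implications -/

/-- the first atom implies the second -/
def imp : Atom → Atom → Bool
  | .up f s, .up g t => Nat.beq f g && Nat.ble s t
  | .lw f s, .lw g t => Nat.beq f g && Nat.ble t s
  | .pr a b, .pr a' b' => Nat.beq a a' && Nat.beq b b'
  | _, _ => false

/-- two atoms exclude each other -/
def exc : Atom → Atom → Bool
  | .up f s, .lw g t => Nat.beq f g && Nat.blt s t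
  | _, _ => false

/-- every atom of the second list follows from an atom of the first -/
def sub (p q : List Atom) : Bool := q.all fun b => p.any fun a => imp a b

section

variable {C : Type} {S : Sem C} {c : C}

theorem imp_ok {a b : Atom} (h : imp a b = true) (ha : a.Holds S c) : b.Holds S c := by
  rcases a with ⟨f, s⟩ | ⟨f, s⟩ | ⟨x, y⟩ <;> rcases b with ⟨g, t⟩ | ⟨g, t⟩ | ⟨x', y'⟩ <;>
    simp only [imp, Bool.and_eq_true, reduceCtorEq] at h
  · obtain ⟨h1, h2⟩ := h
    have e := Nat.eq_of_beq_eq_true h1
    have l := Nat.le_of_ble_eq_true h2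
    subst e
    have l' : (s : ℝ) ≤ (t : ℝ) := by exact_mod_cast l
    exact le_trans (show S.ft c f ≤ (s : ℝ) - 20 from ha) (by linarith)
  · obtain ⟨h1, h2⟩ := h
    have e := Nat.eq_of_beq_eq_true h1
    have l := Nat.le_of_ble_eq_true h2
    subst e
    have l' : (t : ℝ) ≤ (s : ℝ) := by exact_mod_cast l
    exact le_trans (by linarith) (show (s : ℝ) - 20 ≤ S.ft c f from ha)
  · obtain ⟨h1, h2⟩ := h
    have e1 := Nat.eq_of_beq_eq_true h1
    have e2 := Nat.eq_of_beq_eq_true h2
    subst e1 e2
    exact ha

theorem exc_ok {a b : Atom} (h : exc a b = true) (ha : a.Holds S c) (hb : b.Holds S c) :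
    False := by
  rcases a with ⟨f, s⟩ | ⟨f, s⟩ | ⟨x, y⟩ <;> rcases b with ⟨g, t⟩ | ⟨g, t⟩ | ⟨x', y'⟩ <;>
    simp only [exc, Bool.and_eq_true, reduceCtorEq] at h
  obtain ⟨h1, h2⟩ := h
  have e := Nat.eq_of_beq_eq_true h1
  have l : s < t := by simpa [Nat.blt_eq] using h2
  subst e
  have l' : (s : ℝ) < (t : ℝ) := by exact_mod_cast l
  exact absurd (le_trans (show (t : ℝ) - 20 ≤ S.ft c f from hb)
    (show S.ft c f ≤ (s : ℝ) - 20 from ha)) (not_le.2 (by linarith))

theorem sub_ok {p q : List Atom} (h : sub p q = true) (hp : Hs S c p) : Hs S c q := by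
  refine Hs.of_mem fun b hb => ?_
  obtain ⟨a, ha, hab⟩ := List.any_eq_true.1 (List.all_eq_true.1 h b hb)
  exact imp_ok hab (hp.mem a ha)

end

/-! ### trees -/

/-- the trees: a leaf with its number; a threshold of a feature; a disjunction with a chain of `alt` for its alternatives;
a contradictory path; the end of a chain -/
inductive Tr where
  | leaf (n : ℕ)
  | thr (s t : ℕ) (a b : Tr)
  | dis (k : ℕ) (a : Tr)
  | alt (a b : Tr)
  | con
  | nil

/-- the check: `dj` the disjunctions, `L n` the atoms of the leaf `n < N`, `p` the atoms of the path -/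
def chk (dj : ℕ → List Atom × List (List Atom)) (N : ℕ) (L : ℕ → List Atom) :
    Tr → List Atom → Option (List (List Atom)) → Bool
  | _, _, some [] => true
  | .alt a b, p, some (x :: xs) => chk dj N L a (x ++ p) none && chk dj N L b p (some xs)
  | .leaf n, p, none => Nat.blt n N && sub p (L n)
  | .thr f t a b, p, none =>
    chk dj N L a (.up f t :: p) none && chk dj N L b (.lw f t :: p) none
  | .dis k a, p, none => sub p (dj k).1 && chk dj N L a p (some (dj k).2)
  | .con, p, none => p.any fun a => p.any fun b => exc a b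
  | _, _, _ => false

section

variable {C : Type} {S : Sem C}

/-- the alternatives under consideration -/
def Alts (S : Sem C) (c : C) : Option (List (List Atom)) → Prop
  | none => True
  | some l => Ex S c l

/-- **The check is sound.** -/
theorem chk_ok {dj : ℕ → List Atom × List (List Atom)} {N : ℕ} {L : ℕ → List Atom} {c : C} {G : Prop}
    (hd : ∀ k, Hs S c (dj k).1 → Ex S c (dj k).2) (hL : ∀ n < N, Hs S c (L n) → G) :
    ∀ (t : Tr) (p : List Atom) (q : Option (List (List Atom))),
    chk dj N L t p q = true → Hs S c p → Alts S c q → G := by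
  intro t
  induction t with
  | leaf n =>
    intro p q h hp hq
    rcases q with _ | _ | ⟨x, xs⟩
    · simp only [chk, Bool.and_eq_true] at h
      have hn : n < N := by
        have := h.1
        simpa [Nat.blt_eq] using this
      exact hL n hn (sub_ok h.2 hp)
    · exact absurd hq id
    · simp [chk] at h
  | thr f t a b iha ihb =>
    intro p q h hp hq
    rcases q with _ | _ | ⟨x, xs⟩
    · simp only [chk, Bool.and_eq_true] at h
      rcases le_total (S.ft c f) ((t : ℝ) - 20) with h1 | h1
      · exact iha _ _ h.1 ⟨h1, hp⟩ trivial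
      · exact ihb _ _ h.2 ⟨h1, hp⟩ trivial
    · exact absurd hq id
    · simp [chk] at h
  | dis k a iha =>
    intro p q h hp hq
    rcases q with _ | _ | ⟨x, xs⟩
    · simp only [chk, Bool.and_eq_true] at h
      exact iha _ _ h.2 hp (hd k (sub_ok h.1 hp))
    · exact absurd hq id
    · simp [chk] at h
  | alt a b iha ihb =>
    intro p q h hp hq
    rcases q with _ | _ | ⟨x, xs⟩
    · simp [chk] at h
    · exact absurd hq id
    · simp only [chk, Bool.and_eq_true] at h
      rcases hq with hq | hq
      · exact iha _ _ h.1 (hq.append hp) trivial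
      · exact ihb _ _ h.2 hp hq
  | con =>
    intro p q h hp hq
    rcases q with _ | _ | ⟨x, xs⟩
    · simp only [chk] at h
      obtain ⟨a, ha, h⟩ := List.any_eq_true.1 h
      obtain ⟨b, hb, h⟩ := List.any_eq_true.1 h
      exact (exc_ok h (hp.mem a ha) (hp.mem b hb)).elim
    · exact absurd hq id
    · simp [chk] at h
  | nil =>
    intro p q h hp hq
    rcases q with _ | _ | ⟨x, xs⟩
    · simp [chk] at h
    · exact absurd hq id
    · simp [chk] at h

/-- the form for a root -/
theorem tree_ok {dj : ℕ → List Atom × List (List Atom)} {N : ℕ} {L : ℕ → List Atom} {c : C} {G : Prop}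
    (hd : ∀ k, Hs S c (dj k).1 → Ex S c (dj k).2) (hL : ∀ n < N, Hs S c (L n) → G) (t : Tr)
    (p : List Atom) (h : chk dj N L t p none = true) (hp : Hs S c p) : G :=
  chk_ok hd hL t p none h hp trivial

end

end Pool.Agent.Helper53.NE
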