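import Pool.Agent.Helper62.NE.Feat
import Pool.Agent.Helper53.NE.TreeG

/-!
# `TwoLowNE`: the nodes of the tree

Predicates: `pr 0 k`: the function relation `k`; `pr 1 k`: the linear relation `k`; `pr 2 i`: `mf i = 0`;
`pr 3 i`: `mf i ≠ 0`; `pr 4 t`: the conflict types `0` (column `2`, type 1), `1` (column `2`, type 2), `2`, `3` (column `3`).
-/

set_option autoImplicit false

namespace Pool.Agent.Helper53.NE

open Pool.Agent.Helper90.TS Pool.Agent.Helper62.NE

/-- the conflict of the column `m`: the component `X` of one cell, the depth `D` of the other -/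
def Cx (c : Cu) (m : Fin 4) (X D : ℝ) : Prop :=
  c.w 0 m = -20 ∨ c.w 1 m = -20 ∨ (c.w 0 m ≤ c.w 1 m ∧ X ≤ D - 20 + c.w 1 m) ∨
    (c.w 1 m ≤ c.w 0 m ∧ X ≤ D - 20 + c.w 0 m)

/-- the predicates -/
def QQ (c : Cu) : ℕ → ℕ → Prop
  | 0, k => FHold c k
  | 1, k => 0 ≤ LV c k
  | 2, 0 => c.mf 0 = 0
  | 2, _ => c.mf 1 = 0
  | 3, 0 => c.mf 0 ≠ 0
  | 3, _ => c.mf 1 ≠ 0
  | 4, 0 => Cx c 2 (c.X 0 2 1) (c.D 1 2)
  | 4, 1 => Cx c 2 (c.X 1 2 0) (c.D 0 2)
  | 4, 2 => Cx c 3 (c.X 0 3 1) (c.D 1 3)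
  | 4, 3 => Cx c 3 (c.X 1 3 0) (c.D 0 3)
  | _, _ => True

/-- the meaning of the atoms -/
def SS : Sem Cu := ⟨sl, QQ⟩

/-- the nodes: premises and alternatives -/
def nodes : ℕ → List Atom × List (List Atom)
  | 0 => ([], [[.pr 0 24, .pr 1 28, .pr 1 31],
      [.pr 0 25, .pr 1 29, .pr 1 30],
      [.pr 1 26, .pr 1 28, .pr 1 30],
      [.pr 1 27, .pr 1 29, .pr 1 31]]) -- PAIR
  | 1 => ([], [[.pr 0 0],
      [.pr 0 8, .pr 0 16, .pr 1 8, .lw 12 20, .up 15 31, .up 3 31, .pr 0 1, .pr 0 3]]) -- KIND 0 1 2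
  | 2 => ([], [[.pr 0 1],
      [.pr 0 9, .pr 0 17, .pr 1 9, .lw 12 20, .up 15 31, .up 10 31, .pr 0 0, .pr 0 2]]) -- KIND 0 1 3
  | 3 => ([], [[.pr 0 2],
      [.pr 0 10, .pr 0 18, .pr 1 10, .lw 16 20, .up 19 31, .up 10 31, .pr 0 1]]) -- KIND 0 2 3
  | 4 => ([], [[.pr 0 3],
      [.pr 0 11, .pr 0 19, .pr 1 11, .lw 20 20, .up 23 31, .up 3 31, .pr 0 0]]) -- KIND 0 3 2
  | 5 => ([], [[.pr 0 4],
      [.pr 0 12, .pr 0 20, .pr 1 12, .lw 24 20, .up 27 31, .up 4 31, .pr 0 5, .pr 0 7]]) -- KIND 1 0 2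
  | 6 => ([], [[.pr 0 5],
      [.pr 0 13, .pr 0 21, .pr 1 13, .lw 24 20, .up 27 31, .up 9 31, .pr 0 4, .pr 0 6]]) -- KIND 1 0 3
  | 7 => ([], [[.pr 0 6],
      [.pr 0 14, .pr 0 22, .pr 1 14, .lw 28 20, .up 31 31, .up 9 31, .pr 0 5]]) -- KIND 1 2 3
  | 8 => ([], [[.pr 0 7],
      [.pr 0 15, .pr 0 23, .pr 1 15, .lw 32 20, .up 35 31, .up 4 31, .pr 0 4]]) -- KIND 1 3 2
  | 9 => ([], [[.pr 0 46, .pr 4 0],
      [.pr 0 47, .pr 4 1]]) -- CONF 2
  | 10 => ([], [[.pr 0 48, .pr 4 2],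
      [.pr 0 49, .pr 4 3]]) -- CONF 3
  | 11 => ([.pr 4 0, .lw 16 10, .lw 28 10], [[.pr 1 50, .pr 1 51],
      [.pr 1 53, .pr 1 54]]) -- ORDER 1 2
  | 12 => ([.pr 4 1, .lw 16 10, .lw 28 10], [[.pr 1 50, .pr 1 52],
      [.pr 1 53, .pr 1 55]]) -- ORDER 2 2
  | 13 => ([.pr 4 2, .lw 20 10, .lw 32 10], [[.pr 1 56, .pr 1 57],
      [.pr 1 59, .pr 1 60]]) -- ORDER 1 3
  | 14 => ([.pr 4 3, .lw 20 10, .lw 32 10], [[.pr 1 56, .pr 1 58],
      [.pr 1 59, .pr 1 61]]) -- ORDER 2 3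
  | 15 => ([], [[.pr 2 0],
      [.pr 3 0]]) -- MAIN 0
  | 16 => ([], [[.pr 2 1],
      [.pr 3 1]]) -- MAIN 1
  | _ => ([], [[]])

/-- the atoms of the witness; `o = false`: `(0; 1)`, `o = true`: `(0; 3)` -/
def wit : Bool → List Atom
  | false => [.pr 0 8, .pr 0 16, .pr 1 8, .lw 12 20, .up 15 31, .up 3 31, .pr 0 1, .pr 0 3, .pr 0 44, .pr 0 45]
  | true => [.pr 0 11, .pr 0 19, .pr 1 11, .lw 20 20, .up 23 31, .up 3 31, .pr 0 0, .pr 0 44, .pr 0 45]

/-- the witness -/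
def W (o : Bool) (c : Cu) : Prop := match o with
  | false => c.WT
  | true => c.WO

section

variable {c : Cu}

/-- kind A of `(0; 1)` on the row `2` from the failure of kind B -/
theorem fa0 (h : c.Ok) (k : ¬ c.KB 0 1 2 3) : FHold c 0 := by
  refine fh0 h fun _ => ?_
  rcases h.kd 0 1 2 3 (by decide) (by decide) (by decide) with l | l
  · linarith
  · exact absurd l k

/-- kind A of `(0; 1)` on the row `3` from the failure of kind B -/
theorem fa1 (h : c.Ok) (k : ¬ c.KB 0 1 3 2) : FHold c 1 := by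
  refine fh1 h fun _ => ?_
  rcases h.kd 0 1 3 2 (by decide) (by decide) (by decide) with l | l
  · linarith
  · exact absurd l k

/-- kind A of `(0; 2)` on the row `3` from the failure of kind B -/
theorem fa2 (h : c.Ok) (k : ¬ c.KB 0 2 3 1) : FHold c 2 := by
  refine fh2 h fun _ => ?_
  rcases h.kd 0 2 3 1 (by decide) (by decide) (by decide) with l | l
  · linarith
  · exact absurd l k

/-- kind A of `(0; 3)` on the row `2` from the failure of kind B -/
theorem fa3 (h : c.Ok) (k : ¬ c.KB 0 3 2 1) : FHold c 3 := by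
  refine fh3 h fun _ => ?_
  rcases h.kd 0 3 2 1 (by decide) (by decide) (by decide) with l | l
  · linarith
  · exact absurd l k

/-- kind A of `(1; 0)` on the row `2` from the failure of kind B -/
theorem fa4 (h : c.Ok) (k : ¬ c.KB 1 0 2 3) : FHold c 4 := by
  refine fh4 h fun _ => ?_
  rcases h.kd 1 0 2 3 (by decide) (by decide) (by decide) with l | l
  · linarith
  · exact absurd l k

/-- kind A of `(1; 0)` on the row `3` from the failure of kind B -/
theorem fa5 (h : c.Ok) (k : ¬ c.KB 1 0 3 2) : FHold c 5 := by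
  refine fh5 h fun _ => ?_
  rcases h.kd 1 0 3 2 (by decide) (by decide) (by decide) with l | l
  · linarith
  · exact absurd l k

/-- kind A of `(1; 2)` on the row `3` from the failure of kind B -/
theorem fa6 (h : c.Ok) (k : ¬ c.KB 1 2 3 0) : FHold c 6 := by
  refine fh6 h fun _ => ?_
  rcases h.kd 1 2 3 0 (by decide) (by decide) (by decide) with l | l
  · linarith
  · exact absurd l k

/-- kind A of `(1; 3)` on the row `2` from the failure of kind B -/
theorem fa7 (h : c.Ok) (k : ¬ c.KB 1 3 2 0) : FHold c 7 := by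
  refine fh7 h fun _ => ?_
  rcases h.kd 1 3 2 0 (by decide) (by decide) (by decide) with l | l
  · linarith
  · exact absurd l k

/-- the alternative B of `(0; 1)` on the row `2` -/
theorem kB0 (h : c.Ok) (k : c.KB 0 1 2 3) (d : c.D 0 1 ≤ 11) :
    Hs SS c [.pr 0 8, .pr 0 16, .pr 1 8, .lw 12 20, .up 15 31, .up 3 31, .pr 0 1, .pr 0 3] := by
  have l := k.lo
  have v := k.vi
  have p := k.pr
  have s := h.vs 2 0 1 3 (by decide) (by decide)
  have e := h.e0 2 (by decide)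
  have w0 : 0 ≤ c.w 0 1 := by
    rcases h.cell 0 1 2 3 (by decide) (by decide) with k' | k'
    · exact k'.w0.le
    · have := k'.D
      rw [this] at p
      norm_num at p
  refine ⟨fh_of_rel h 8 (r8 (by linarith)), fh_of_rel h 16 (r16 (by linarith)),
    lh_of_rel 8 (r8 (by linarith)), ?_, ?_, ?_, fa1 h (h.f1 0 1 2 3 (by decide) (by decide) (by decide) (by decide) k), fa3 h (h.f2 0 1 2 3 (by decide) (by decide) (by decide) k), trivial⟩
  · norm_num [Atom.Holds, SS, sl]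
    linarith
  · norm_num [Atom.Holds, SS, sl]
    linarith
  · norm_num [Atom.Holds, SS, sl]
    linarith

/-- the alternative B of `(0; 1)` on the row `3` -/
theorem kB1 (h : c.Ok) (k : c.KB 0 1 3 2) (d : c.D 0 1 ≤ 11) :
    Hs SS c [.pr 0 9, .pr 0 17, .pr 1 9, .lw 12 20, .up 15 31, .up 10 31, .pr 0 0, .pr 0 2] := by
  have l := k.lo
  have v := k.vi
  have p := k.pr
  have s := h.vs 3 0 1 2 (by decide) (by decide)
  have e := h.e0 3 (by decide)
  have w0 : 0 ≤ c.w 0 1 := by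
    rcases h.cell 0 1 3 2 (by decide) (by decide) with k' | k'
    · exact k'.w0.le
    · have := k'.D
      rw [this] at p
      norm_num at p
  refine ⟨fh_of_rel h 9 (r9 (by linarith)), fh_of_rel h 17 (r17 (by linarith)),
    lh_of_rel 9 (r9 (by linarith)), ?_, ?_, ?_, fa0 h (h.f1 0 1 3 2 (by decide) (by decide) (by decide) (by decide) k), fa2 h (h.f2 0 1 3 2 (by decide) (by decide) (by decide) k), trivial⟩
  · norm_num [Atom.Holds, SS, sl]
    linarith
  · norm_num [Atom.Holds, SS, sl]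
    linarith
  · norm_num [Atom.Holds, SS, sl]
    linarith

/-- the alternative B of `(0; 2)` on the row `3` -/
theorem kB2 (h : c.Ok) (k : c.KB 0 2 3 1) (d : c.D 0 2 ≤ 11) :
    Hs SS c [.pr 0 10, .pr 0 18, .pr 1 10, .lw 16 20, .up 19 31, .up 10 31, .pr 0 1] := by
  have l := k.lo
  have v := k.vi
  have p := k.pr
  have s := h.vs 3 0 2 1 (by decide) (by decide)
  have e := h.e0 3 (by decide)
  have w0 : 0 ≤ c.w 0 2 := by
    rcases h.cell 0 2 3 1 (by decide) (by decide) with k' | k'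
    · exact k'.w0.le
    · have := k'.D
      rw [this] at p
      norm_num at p
  refine ⟨fh_of_rel h 10 (r10 (by linarith)), fh_of_rel h 18 (r18 (by linarith)),
    lh_of_rel 10 (r10 (by linarith)), ?_, ?_, ?_, fa1 h (h.f2 0 2 3 1 (by decide) (by decide) (by decide) k), trivial⟩
  · norm_num [Atom.Holds, SS, sl]
    linarith
  · norm_num [Atom.Holds, SS, sl]
    linarith
  · norm_num [Atom.Holds, SS, sl]
    linarith

/-- the alternative B of `(0; 3)` on the row `2` -/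
theorem kB3 (h : c.Ok) (k : c.KB 0 3 2 1) (d : c.D 0 3 ≤ 11) :
    Hs SS c [.pr 0 11, .pr 0 19, .pr 1 11, .lw 20 20, .up 23 31, .up 3 31, .pr 0 0] := by
  have l := k.lo
  have v := k.vi
  have p := k.pr
  have s := h.vs 2 0 3 1 (by decide) (by decide)
  have e := h.e0 2 (by decide)
  have w0 : 0 ≤ c.w 0 3 := by
    rcases h.cell 0 3 2 1 (by decide) (by decide) with k' | k'
    · exact k'.w0.le
    · have := k'.D
      rw [this] at p
      norm_num at p
  refine ⟨fh_of_rel h 11 (r11 (by linarith)), fh_of_rel h 19 (r19 (by linarith)),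
    lh_of_rel 11 (r11 (by linarith)), ?_, ?_, ?_, fa0 h (h.f2 0 3 2 1 (by decide) (by decide) (by decide) k), trivial⟩
  · norm_num [Atom.Holds, SS, sl]
    linarith
  · norm_num [Atom.Holds, SS, sl]
    linarith
  · norm_num [Atom.Holds, SS, sl]
    linarith

/-- the alternative B of `(1; 0)` on the row `2` -/
theorem kB4 (h : c.Ok) (k : c.KB 1 0 2 3) (d : c.D 1 0 ≤ 11) :
    Hs SS c [.pr 0 12, .pr 0 20, .pr 1 12, .lw 24 20, .up 27 31, .up 4 31, .pr 0 5, .pr 0 7] := by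
  have l := k.lo
  have v := k.vi
  have p := k.pr
  have s := h.vs 2 1 0 3 (by decide) (by decide)
  have e := h.e0 2 (by decide)
  have w0 : 0 ≤ c.w 1 0 := by
    rcases h.cell 1 0 2 3 (by decide) (by decide) with k' | k'
    · exact k'.w0.le
    · have := k'.D
      rw [this] at p
      norm_num at p
  refine ⟨fh_of_rel h 12 (r12 (by linarith)), fh_of_rel h 20 (r20 (by linarith)),
    lh_of_rel 12 (r12 (by linarith)), ?_, ?_, ?_, fa5 h (h.f1 1 0 2 3 (by decide) (by decide) (by decide) (by decide) k), fa7 h (h.f2 1 0 2 3 (by decide) (by decide) (by decide) k), trivial⟩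
  · norm_num [Atom.Holds, SS, sl]
    linarith
  · norm_num [Atom.Holds, SS, sl]
    linarith
  · norm_num [Atom.Holds, SS, sl]
    linarith

/-- the alternative B of `(1; 0)` on the row `3` -/
theorem kB5 (h : c.Ok) (k : c.KB 1 0 3 2) (d : c.D 1 0 ≤ 11) :
    Hs SS c [.pr 0 13, .pr 0 21, .pr 1 13, .lw 24 20, .up 27 31, .up 9 31, .pr 0 4, .pr 0 6] := by
  have l := k.lo
  have v := k.vi
  have p := k.pr
  have s := h.vs 3 1 0 2 (by decide) (by decide)
  have e := h.e0 3 (by decide)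
  have w0 : 0 ≤ c.w 1 0 := by
    rcases h.cell 1 0 3 2 (by decide) (by decide) with k' | k'
    · exact k'.w0.le
    · have := k'.D
      rw [this] at p
      norm_num at p
  refine ⟨fh_of_rel h 13 (r13 (by linarith)), fh_of_rel h 21 (r21 (by linarith)),
    lh_of_rel 13 (r13 (by linarith)), ?_, ?_, ?_, fa4 h (h.f1 1 0 3 2 (by decide) (by decide) (by decide) (by decide) k), fa6 h (h.f2 1 0 3 2 (by decide) (by decide) (by decide) k), trivial⟩
  · norm_num [Atom.Holds, SS, sl]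
    linarith
  · norm_num [Atom.Holds, SS, sl]
    linarith
  · norm_num [Atom.Holds, SS, sl]
    linarith

/-- the alternative B of `(1; 2)` on the row `3` -/
theorem kB6 (h : c.Ok) (k : c.KB 1 2 3 0) (d : c.D 1 2 ≤ 11) :
    Hs SS c [.pr 0 14, .pr 0 22, .pr 1 14, .lw 28 20, .up 31 31, .up 9 31, .pr 0 5] := by
  have l := k.lo
  have v := k.vi
  have p := k.pr
  have s := h.vs 3 1 2 0 (by decide) (by decide)
  have e := h.e0 3 (by decide)
  have w0 : 0 ≤ c.w 1 2 := by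
    rcases h.cell 1 2 3 0 (by decide) (by decide) with k' | k'
    · exact k'.w0.le
    · have := k'.D
      rw [this] at p
      norm_num at p
  refine ⟨fh_of_rel h 14 (r14 (by linarith)), fh_of_rel h 22 (r22 (by linarith)),
    lh_of_rel 14 (r14 (by linarith)), ?_, ?_, ?_, fa5 h (h.f2 1 2 3 0 (by decide) (by decide) (by decide) k), trivial⟩
  · norm_num [Atom.Holds, SS, sl]
    linarith
  · norm_num [Atom.Holds, SS, sl]
    linarith
  · norm_num [Atom.Holds, SS, sl]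
    linarith

/-- the alternative B of `(1; 3)` on the row `2` -/
theorem kB7 (h : c.Ok) (k : c.KB 1 3 2 0) (d : c.D 1 3 ≤ 11) :
    Hs SS c [.pr 0 15, .pr 0 23, .pr 1 15, .lw 32 20, .up 35 31, .up 4 31, .pr 0 4] := by
  have l := k.lo
  have v := k.vi
  have p := k.pr
  have s := h.vs 2 1 3 0 (by decide) (by decide)
  have e := h.e0 2 (by decide)
  have w0 : 0 ≤ c.w 1 3 := by
    rcases h.cell 1 3 2 0 (by decide) (by decide) with k' | k'
    · exact k'.w0.le
    · have := k'.D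
      rw [this] at p
      norm_num at p
  refine ⟨fh_of_rel h 15 (r15 (by linarith)), fh_of_rel h 23 (r23 (by linarith)),
    lh_of_rel 15 (r15 (by linarith)), ?_, ?_, ?_, fa4 h (h.f2 1 3 2 0 (by decide) (by decide) (by decide) k), trivial⟩
  · norm_num [Atom.Holds, SS, sl]
    linarith
  · norm_num [Atom.Holds, SS, sl]
    linarith
  · norm_num [Atom.Holds, SS, sl]
    linarith

/-- the pair of the rows -/
theorem nd0 (h : c.Ok) : Ex SS c (nodes 0).2 := by
  rcases h.pair with ⟨h1, h2, h3⟩ | ⟨h1, h2, h3⟩ | ⟨h1, h2, h3⟩ | ⟨h1, h2, h3⟩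
  · exact Or.inl ⟨fh_of_rel h 24 (r24 (by linarith)), lh_of_rel 28 (r28 (by linarith)), lh_of_rel 31 (r31 (by linarith)), trivial⟩
  · exact Or.inr (Or.inl ⟨fh_of_rel h 25 (r25 (by linarith)), lh_of_rel 29 (r29 (by linarith)), lh_of_rel 30 (r30 (by linarith)), trivial⟩)
  · exact Or.inr (Or.inr (Or.inl ⟨lh_of_rel 26 (r26 (by linarith)), lh_of_rel 28 (r28 (by linarith)), lh_of_rel 30 (r30 (by linarith)), trivial⟩))
  · exact Or.inr (Or.inr (Or.inr (Or.inl ⟨lh_of_rel 27 (r27 (by linarith)), lh_of_rel 29 (r29 (by linarith)), lh_of_rel 31 (r31 (by linarith)), trivial⟩)))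

theorem nd1 (h : c.Ok) : Ex SS c (nodes 1).2 := by
  by_cases k : c.KB 0 1 2 3
  · rcases le_total (c.D 0 1) 11 with d | d
    · exact Or.inr (Or.inl (kB0 h k d))
    · exact Or.inl ⟨fh0 h fun e => absurd d (not_le.2 e), trivial⟩
  · exact Or.inl ⟨fa0 h k, trivial⟩

theorem nd2 (h : c.Ok) : Ex SS c (nodes 2).2 := by
  by_cases k : c.KB 0 1 3 2
  · rcases le_total (c.D 0 1) 11 with d | d
    · exact Or.inr (Or.inl (kB1 h k d))
    · exact Or.inl ⟨fh1 h fun e => absurd d (not_le.2 e), trivial⟩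
  · exact Or.inl ⟨fa1 h k, trivial⟩

theorem nd3 (h : c.Ok) : Ex SS c (nodes 3).2 := by
  by_cases k : c.KB 0 2 3 1
  · rcases le_total (c.D 0 2) 11 with d | d
    · exact Or.inr (Or.inl (kB2 h k d))
    · exact Or.inl ⟨fh2 h fun e => absurd d (not_le.2 e), trivial⟩
  · exact Or.inl ⟨fa2 h k, trivial⟩

theorem nd4 (h : c.Ok) : Ex SS c (nodes 4).2 := by
  by_cases k : c.KB 0 3 2 1
  · rcases le_total (c.D 0 3) 11 with d | d
    · exact Or.inr (Or.inl (kB3 h k d))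
    · exact Or.inl ⟨fh3 h fun e => absurd d (not_le.2 e), trivial⟩
  · exact Or.inl ⟨fa3 h k, trivial⟩

theorem nd5 (h : c.Ok) : Ex SS c (nodes 5).2 := by
  by_cases k : c.KB 1 0 2 3
  · rcases le_total (c.D 1 0) 11 with d | d
    · exact Or.inr (Or.inl (kB4 h k d))
    · exact Or.inl ⟨fh4 h fun e => absurd d (not_le.2 e), trivial⟩
  · exact Or.inl ⟨fa4 h k, trivial⟩

theorem nd6 (h : c.Ok) : Ex SS c (nodes 6).2 := by
  by_cases k : c.KB 1 0 3 2
  · rcases le_total (c.D 1 0) 11 with d | d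
    · exact Or.inr (Or.inl (kB5 h k d))
    · exact Or.inl ⟨fh5 h fun e => absurd d (not_le.2 e), trivial⟩
  · exact Or.inl ⟨fa5 h k, trivial⟩

theorem nd7 (h : c.Ok) : Ex SS c (nodes 7).2 := by
  by_cases k : c.KB 1 2 3 0
  · rcases le_total (c.D 1 2) 11 with d | d
    · exact Or.inr (Or.inl (kB6 h k d))
    · exact Or.inl ⟨fh6 h fun e => absurd d (not_le.2 e), trivial⟩
  · exact Or.inl ⟨fa6 h k, trivial⟩

theorem nd8 (h : c.Ok) : Ex SS c (nodes 8).2 := by
  by_cases k : c.KB 1 3 2 0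
  · rcases le_total (c.D 1 3) 11 with d | d
    · exact Or.inr (Or.inl (kB7 h k d))
    · exact Or.inl ⟨fh7 h fun e => absurd d (not_le.2 e), trivial⟩
  · exact Or.inl ⟨fa7 h k, trivial⟩

/-- the common bounds of a cell -/
theorem cell_bd (h : c.Ok) {i m r z : Fin 4} (hi : i = 0 ∨ i = 1) (hn : [i, m, r, z].Nodup) :
    c.w i m ≤ 20 := by
  rcases h.cell i m r z hi hn with k | k
  · exact k.w1
  · have := k.w
    linarith

/-- the conflict of the column `2` -/
theorem nd9 (h : c.Ok) : Ex SS c (nodes 9).2 := by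
  have a1 := cell_bd h (i := 0) (m := 2) (r := 1) (z := 3) (by decide) (by decide)
  have b1 := cell_bd h (i := 1) (m := 2) (r := 0) (z := 3) (by decide) (by decide)
  rcases h.cf 2 (by decide) with k | k | ⟨h1, h2⟩ | ⟨h1, h2⟩ | ⟨h1, h2⟩ | ⟨h1, h2⟩
  · rcases h.cs 2 (by decide) with l | l
    · exact Or.inl ⟨fh_of_rel h 46 (r46 (by linarith)), Or.inl k, trivial⟩
    · exact Or.inr (Or.inl ⟨fh_of_rel h 47 (r47 (by linarith)), Or.inl k, trivial⟩)
  · rcases h.cs 2 (by decide) with l | l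
    · exact Or.inl ⟨fh_of_rel h 46 (r46 (by linarith)), Or.inr (Or.inl k), trivial⟩
    · exact Or.inr (Or.inl ⟨fh_of_rel h 47 (r47 (by linarith)), Or.inr (Or.inl k), trivial⟩)
  · exact Or.inl ⟨fh_of_rel h 46 (r46 (by linarith)), Or.inr (Or.inr (Or.inl ⟨h1, h2⟩)), trivial⟩
  · exact Or.inr (Or.inl ⟨fh_of_rel h 47 (r47 (by linarith)), Or.inr (Or.inr (Or.inl ⟨h1, h2⟩)), trivial⟩)
  · exact Or.inl ⟨fh_of_rel h 46 (r46 (by linarith)), Or.inr (Or.inr (Or.inr ⟨h1, h2⟩)), trivial⟩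
  · exact Or.inr (Or.inl ⟨fh_of_rel h 47 (r47 (by linarith)), Or.inr (Or.inr (Or.inr ⟨h1, h2⟩)), trivial⟩)

/-- the conflict of the column `3` -/
theorem nd10 (h : c.Ok) : Ex SS c (nodes 10).2 := by
  have a1 := cell_bd h (i := 0) (m := 3) (r := 1) (z := 2) (by decide) (by decide)
  have b1 := cell_bd h (i := 1) (m := 3) (r := 0) (z := 2) (by decide) (by decide)
  rcases h.cf 3 (by decide) with k | k | ⟨h1, h2⟩ | ⟨h1, h2⟩ | ⟨h1, h2⟩ | ⟨h1, h2⟩
  · rcases h.cs 3 (by decide) with l | l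
    · exact Or.inl ⟨fh_of_rel h 48 (r48 (by linarith)), Or.inl k, trivial⟩
    · exact Or.inr (Or.inl ⟨fh_of_rel h 49 (r49 (by linarith)), Or.inl k, trivial⟩)
  · rcases h.cs 3 (by decide) with l | l
    · exact Or.inl ⟨fh_of_rel h 48 (r48 (by linarith)), Or.inr (Or.inl k), trivial⟩
    · exact Or.inr (Or.inl ⟨fh_of_rel h 49 (r49 (by linarith)), Or.inr (Or.inl k), trivial⟩)
  · exact Or.inl ⟨fh_of_rel h 48 (r48 (by linarith)), Or.inr (Or.inr (Or.inl ⟨h1, h2⟩)), trivial⟩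
  · exact Or.inr (Or.inl ⟨fh_of_rel h 49 (r49 (by linarith)), Or.inr (Or.inr (Or.inl ⟨h1, h2⟩)), trivial⟩)
  · exact Or.inl ⟨fh_of_rel h 48 (r48 (by linarith)), Or.inr (Or.inr (Or.inr ⟨h1, h2⟩)), trivial⟩
  · exact Or.inr (Or.inl ⟨fh_of_rel h 49 (r49 (by linarith)), Or.inr (Or.inr (Or.inr ⟨h1, h2⟩)), trivial⟩)

/-- the two orders of a conflict of two present cells -/
theorem cx_or {m : Fin 4} {X D : ℝ} (h : Cx c m X D) (h0 : -10 ≤ c.w 0 m) (h1 : -10 ≤ c.w 1 m) :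
    (c.w 0 m ≤ c.w 1 m ∧ X ≤ D - 20 + c.w 1 m) ∨ (c.w 1 m ≤ c.w 0 m ∧ X ≤ D - 20 + c.w 0 m) := by
  rcases h with h | h | h | h
  · rw [h] at h0
    norm_num at h0
  · rw [h] at h1
    norm_num at h1
  · exact Or.inl h
  · exact Or.inr h

/-- the orders, column `2`, type 1 -/
theorem nd11 (h : Hs SS c (nodes 11).1) : Ex SS c (nodes 11).2 := by
  obtain ⟨h1, h2, h3, -⟩ := h
  have e2 : -10 ≤ c.w 0 2 := by
    norm_num [Atom.Holds, SS, sl] at h2
    linarith
  have e3 : -10 ≤ c.w 1 2 := by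
    norm_num [Atom.Holds, SS, sl] at h3
    linarith
  rcases cx_or h1 e2 e3 with ⟨k1, k2⟩ | ⟨k1, k2⟩
  · exact Or.inl ⟨lh_of_rel 50 (r50 (by linarith)), lh_of_rel 51 (r51 (by linarith)), trivial⟩
  · exact Or.inr (Or.inl ⟨lh_of_rel 53 (r53 (by linarith)), lh_of_rel 54 (r54 (by linarith)), trivial⟩)

/-- the orders, column `2`, type 2 -/
theorem nd12 (h : Hs SS c (nodes 12).1) : Ex SS c (nodes 12).2 := by
  obtain ⟨h1, h2, h3, -⟩ := h
  have e2 : -10 ≤ c.w 0 2 := by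
    norm_num [Atom.Holds, SS, sl] at h2
    linarith
  have e3 : -10 ≤ c.w 1 2 := by
    norm_num [Atom.Holds, SS, sl] at h3
    linarith
  rcases cx_or h1 e2 e3 with ⟨k1, k2⟩ | ⟨k1, k2⟩
  · exact Or.inl ⟨lh_of_rel 50 (r50 (by linarith)), lh_of_rel 52 (r52 (by linarith)), trivial⟩
  · exact Or.inr (Or.inl ⟨lh_of_rel 53 (r53 (by linarith)), lh_of_rel 55 (r55 (by linarith)), trivial⟩)

/-- the orders, column `3`, type 1 -/
theorem nd13 (h : Hs SS c (nodes 13).1) : Ex SS c (nodes 13).2 := by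
  obtain ⟨h1, h2, h3, -⟩ := h
  have e2 : -10 ≤ c.w 0 3 := by
    norm_num [Atom.Holds, SS, sl] at h2
    linarith
  have e3 : -10 ≤ c.w 1 3 := by
    norm_num [Atom.Holds, SS, sl] at h3
    linarith
  rcases cx_or h1 e2 e3 with ⟨k1, k2⟩ | ⟨k1, k2⟩
  · exact Or.inl ⟨lh_of_rel 56 (r56 (by linarith)), lh_of_rel 57 (r57 (by linarith)), trivial⟩
  · exact Or.inr (Or.inl ⟨lh_of_rel 59 (r59 (by linarith)), lh_of_rel 60 (r60 (by linarith)), trivial⟩)

/-- the orders, column `3`, type 2 -/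
theorem nd14 (h : Hs SS c (nodes 14).1) : Ex SS c (nodes 14).2 := by
  obtain ⟨h1, h2, h3, -⟩ := h
  have e2 : -10 ≤ c.w 0 3 := by
    norm_num [Atom.Holds, SS, sl] at h2
    linarith
  have e3 : -10 ≤ c.w 1 3 := by
    norm_num [Atom.Holds, SS, sl] at h3
    linarith
  rcases cx_or h1 e2 e3 with ⟨k1, k2⟩ | ⟨k1, k2⟩
  · exact Or.inl ⟨lh_of_rel 56 (r56 (by linarith)), lh_of_rel 58 (r58 (by linarith)), trivial⟩
  · exact Or.inr (Or.inl ⟨lh_of_rel 59 (r59 (by linarith)), lh_of_rel 61 (r61 (by linarith)), trivial⟩)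

/-- **Every node is valid.** -/
theorem nodes_ok (h : c.Ok) : ∀ k, Hs SS c (nodes k).1 → Ex SS c (nodes k).2
  | 0 => fun _ => nd0 h
  | 1 => fun _ => nd1 h
  | 2 => fun _ => nd2 h
  | 3 => fun _ => nd3 h
  | 4 => fun _ => nd4 h
  | 5 => fun _ => nd5 h
  | 6 => fun _ => nd6 h
  | 7 => fun _ => nd7 h
  | 8 => fun _ => nd8 h
  | 9 => fun _ => nd9 h
  | 10 => fun _ => nd10 h
  | 11 => fun p => nd11 p
  | 12 => fun p => nd12 p
  | 13 => fun p => nd13 p
  | 14 => fun p => nd14 p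
  | 15 => fun _ => by
    by_cases e : c.mf 0 = 0
    · exact Or.inl ⟨e, trivial⟩
    · exact Or.inr (Or.inl ⟨e, trivial⟩)
  | 16 => fun _ => by
    by_cases e : c.mf 1 = 0
    · exact Or.inl ⟨e, trivial⟩
    · exact Or.inr (Or.inl ⟨e, trivial⟩)
  | _ + 17 => fun _ => Or.inl trivial

/-- the atoms of the witness hold -/
theorem wit_ok (o : Bool) (h : c.Ok) (k : W o c) : Hs SS c (wit o) := by
  have c1 : FHold c 44 := fh_of_rel h 44 (r44 (by linarith [h.cr 2 3 (Or.inl ⟨rfl, rfl⟩)]))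
  have c2 : FHold c 45 := fh_of_rel h 45 (r45 (by linarith [h.cr 3 2 (Or.inr ⟨rfl, rfl⟩)]))
  cases o
  · exact (kB0 h k.kb k.dC.le).append (l' := [.pr 0 44, .pr 0 45]) ⟨c1, c2, trivial⟩
  · exact (kB3 h k.kb k.dC.le).append (l' := [.pr 0 44, .pr 0 45]) ⟨c1, c2, trivial⟩

end

/-- **`TwoLowNE` from the two trees.** -/
theorem twoLowNE_of_trees {N M : ℕ} {L K : ℕ → List Atom} {t s : Tr}
    (hL : ∀ n < N, ∀ c : Cu, c.Ok → Hs SS c (L n) → c.val ≤ 613 / 200)
    (hK : ∀ n < M, ∀ c : Cu, c.Ok → Hs SS c (K n) → c.val ≤ 613 / 200)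
    (ht : chk nodes N L t (wit false) none = true) (hs : chk nodes M K s (wit true) none = true) :
    TwoLowNE :=
  twoLowNE_of_cu
    (fun c hc hw => tree_ok (nodes_ok hc) (fun n hn hh => hL n hn c hc hh) t _ ht
      (wit_ok false hc hw))
    fun c hc hw => tree_ok (nodes_ok hc) (fun n hn hh => hK n hn c hc hh) s _ hs (wit_ok true hc hw)

end Pool.Agent.Helper53.NE
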