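import Pool.Agent.Helper90.TS.NEU

/-!
# `TwoLowNE`: features and numbered linear relations

`ft c n` are the features of a configuration `c : Cu` (units `1/20`), `rel k` the numbered linear relations.
-/

set_option autoImplicit false

namespace Pool.Agent.Helper53.NE

open Pool.Agent.Helper90.TS

/-- the features -/
def ft (c : Cu) : ℕ → ℝ
  | 0 => c.v 2 0
  | 1 => c.v 2 1
  | 2 => c.v 2 3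
  | 3 => c.e 2
  | 4 => c.v 3 0
  | 5 => c.v 3 1
  | 6 => c.v 3 2
  | 7 => c.e 3
  | 8 => c.w 0 1
  | 9 => c.X 0 1 2
  | 10 => c.X 0 1 3
  | 11 => c.D 0 1
  | 12 => c.w 0 2
  | 13 => c.X 0 2 1
  | 14 => c.X 0 2 3
  | 15 => c.D 0 2
  | 16 => c.w 0 3
  | 17 => c.X 0 3 1
  | 18 => c.X 0 3 2
  | 19 => c.D 0 3
  | 20 => c.w 1 0
  | 21 => c.X 1 0 2
  | 22 => c.X 1 0 3
  | 23 => c.D 1 0
  | 24 => c.w 1 2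
  | 25 => c.X 1 2 0
  | 26 => c.X 1 2 3
  | 27 => c.D 1 2
  | 28 => c.w 1 3
  | 29 => c.X 1 3 0
  | 30 => c.X 1 3 2
  | 31 => c.D 1 3
  | _ => 0

/-- a linear relation `∑ coefficient * feature ≤ k` -/
structure Rel where
  c : List (ℕ × ℤ)
  k : ℤ

/-- the relation holds -/
def Rel.holds (c : Cu) (r : Rel) : Prop := (r.c.map fun p => (p.2 : ℝ) * ft c p.1).sum ≤ (r.k : ℝ)

/-- the numbered relations -/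
def rel : ℕ → Rel
  | 0 => ⟨[(1, 1), (9, 1)], 20⟩ -- kind A of (0;1) on row 2
  | 1 => ⟨[(5, 1), (10, 1)], 20⟩ -- kind A of (0;1) on row 3
  | 2 => ⟨[(6, 1), (14, 1)], 20⟩ -- kind A of (0;2) on row 3
  | 3 => ⟨[(2, 1), (18, 1)], 20⟩ -- kind A of (0;3) on row 2
  | 4 => ⟨[(0, 1), (21, 1)], 20⟩ -- kind A of (1;0) on row 2
  | 5 => ⟨[(4, 1), (22, 1)], 20⟩ -- kind A of (1;0) on row 3
  | 6 => ⟨[(6, 1), (26, 1)], 20⟩ -- kind A of (1;2) on row 3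
  | 7 => ⟨[(2, 1), (30, 1)], 20⟩ -- kind A of (1;3) on row 2
  | 8 => ⟨[(1, 1), (2, 1), (0, -1), (11, -2)], -20⟩ -- kind B of (0;1) on row 2
  | 9 => ⟨[(5, 1), (6, 1), (4, -1), (11, -2)], -20⟩ -- kind B of (0;1) on row 3
  | 10 => ⟨[(6, 1), (5, 1), (4, -1), (15, -2)], -20⟩ -- kind B of (0;2) on row 3
  | 11 => ⟨[(2, 1), (1, 1), (0, -1), (19, -2)], -20⟩ -- kind B of (0;3) on row 2
  | 12 => ⟨[(0, 1), (2, 1), (1, -1), (23, -2)], -20⟩ -- kind B of (1;0) on row 2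
  | 13 => ⟨[(4, 1), (6, 1), (5, -1), (23, -2)], -20⟩ -- kind B of (1;0) on row 3
  | 14 => ⟨[(6, 1), (4, 1), (5, -1), (27, -2)], -20⟩ -- kind B of (1;2) on row 3
  | 15 => ⟨[(2, 1), (0, 1), (1, -1), (31, -2)], -20⟩ -- kind B of (1;3) on row 2
  | 16 => ⟨[(1, -1), (9, -1)], -20⟩ -- violation of (0;1) on row 2
  | 17 => ⟨[(5, -1), (10, -1)], -20⟩ -- violation of (0;1) on row 3
  | 18 => ⟨[(6, -1), (14, -1)], -20⟩ -- violation of (0;2) on row 3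
  | 19 => ⟨[(2, -1), (18, -1)], -20⟩ -- violation of (0;3) on row 2
  | 20 => ⟨[(0, -1), (21, -1)], -20⟩ -- violation of (1;0) on row 2
  | 21 => ⟨[(4, -1), (22, -1)], -20⟩ -- violation of (1;0) on row 3
  | 22 => ⟨[(6, -1), (26, -1)], -20⟩ -- violation of (1;2) on row 3
  | 23 => ⟨[(2, -1), (30, -1)], -20⟩ -- violation of (1;3) on row 2
  | 24 => ⟨[(4, 1), (1, 1)], 0⟩ -- P1
  | 25 => ⟨[(0, 1), (5, 1)], 0⟩ -- P2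
  | 26 => ⟨[(4, 2), (5, 2), (7, 1), (3, -1)], 0⟩ -- P3
  | 27 => ⟨[(0, 2), (1, 2), (3, 1), (7, -1)], 0⟩ -- P4
  | 28 => ⟨[(4, 2), (7, 1), (0, -2), (3, -1)], 0⟩ -- u30 <= u20
  | 29 => ⟨[(0, 2), (3, 1), (4, -2), (7, -1)], 0⟩ -- u20 <= u30
  | 30 => ⟨[(5, 2), (7, 1), (1, -2), (3, -1)], 0⟩ -- u31 <= u21
  | 31 => ⟨[(1, 2), (3, 1), (5, -2), (7, -1)], 0⟩ -- u21 <= u31
  | 32 => ⟨[(10, 1), (12, 1)], 20⟩ -- support 0; 1 2, first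
  | 33 => ⟨[(14, 1), (8, 1)], 20⟩ -- support 0; 1 2, second
  | 34 => ⟨[(9, 1), (16, 1)], 20⟩ -- support 0; 1 3, first
  | 35 => ⟨[(18, 1), (8, 1)], 20⟩ -- support 0; 1 3, second
  | 36 => ⟨[(13, 1), (16, 1)], 20⟩ -- support 0; 2 3, first
  | 37 => ⟨[(17, 1), (12, 1)], 20⟩ -- support 0; 2 3, second
  | 38 => ⟨[(22, 1), (24, 1)], 20⟩ -- support 1; 0 2, first
  | 39 => ⟨[(26, 1), (20, 1)], 20⟩ -- support 1; 0 2, second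
  | 40 => ⟨[(21, 1), (28, 1)], 20⟩ -- support 1; 0 3, first
  | 41 => ⟨[(30, 1), (20, 1)], 20⟩ -- support 1; 0 3, second
  | 42 => ⟨[(25, 1), (28, 1)], 20⟩ -- support 1; 2 3, first
  | 43 => ⟨[(29, 1), (24, 1)], 20⟩ -- support 1; 2 3, second
  | 44 => ⟨[(13, 1), (29, 1)], 40⟩ -- cross 2 3
  | 45 => ⟨[(17, 1), (25, 1)], 40⟩ -- cross 3 2
  | 46 => ⟨[(13, 1), (27, -1)], 0⟩ -- conflict 2 short, first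
  | 47 => ⟨[(25, 1), (15, -1)], 0⟩ -- conflict 2 short, second
  | 48 => ⟨[(17, 1), (31, -1)], 0⟩ -- conflict 3 short, first
  | 49 => ⟨[(29, 1), (19, -1)], 0⟩ -- conflict 3 short, second
  | 50 => ⟨[(12, 1), (24, -1)], 0⟩ -- w02 <= w12
  | 51 => ⟨[(13, 1), (27, -1), (24, -1)], -20⟩ -- conflict 2, e1
  | 52 => ⟨[(25, 1), (15, -1), (24, -1)], -20⟩ -- conflict 2, e2
  | 53 => ⟨[(24, 1), (12, -1)], 0⟩ -- w12 <= w02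
  | 54 => ⟨[(13, 1), (27, -1), (12, -1)], -20⟩ -- conflict 2, e3
  | 55 => ⟨[(25, 1), (15, -1), (12, -1)], -20⟩ -- conflict 2, e4
  | 56 => ⟨[(16, 1), (28, -1)], 0⟩ -- w03 <= w13
  | 57 => ⟨[(17, 1), (31, -1), (28, -1)], -20⟩ -- conflict 3, e1
  | 58 => ⟨[(29, 1), (19, -1), (28, -1)], -20⟩ -- conflict 3, e2
  | 59 => ⟨[(28, 1), (16, -1)], 0⟩ -- w13 <= w03
  | 60 => ⟨[(17, 1), (31, -1), (16, -1)], -20⟩ -- conflict 3, e3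
  | 61 => ⟨[(29, 1), (19, -1), (16, -1)], -20⟩ -- conflict 3, e4
  | 62 => ⟨[(3, 25), (7, 25)], 226⟩ -- e2 + e3
  | _ => ⟨[], 0⟩

section

variable {c : Cu}

private theorem mk2 {r : Rel} (i j : ℕ) (a b K : ℤ) (hr : r = ⟨[(i, a), (j, b)], K⟩)
    (h : (a : ℝ) * ft c i + (b : ℝ) * ft c j ≤ K) : r.holds c := by
  subst hr
  simp only [Rel.holds, List.map_cons, List.map_nil, List.sum_cons, List.sum_nil, add_zero]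
  linarith only [h]

private theorem mk3 {r : Rel} (i j k : ℕ) (a b d K : ℤ) (hr : r = ⟨[(i, a), (j, b), (k, d)], K⟩)
    (h : (a : ℝ) * ft c i + (b : ℝ) * ft c j + (d : ℝ) * ft c k ≤ K) : r.holds c := by
  subst hr
  simp only [Rel.holds, List.map_cons, List.map_nil, List.sum_cons, List.sum_nil, add_zero]
  linarith only [h]

private theorem mk4 {r : Rel} (i j k l : ℕ) (a b d e K : ℤ) (hr : r = ⟨[(i, a), (j, b), (k, d), (l, e)], K⟩)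
    (h : (a : ℝ) * ft c i + (b : ℝ) * ft c j + (d : ℝ) * ft c k + (e : ℝ) * ft c l ≤ K) : r.holds c := by
  subst hr
  simp only [Rel.holds, List.map_cons, List.map_nil, List.sum_cons, List.sum_nil, add_zero]
  linarith only [h]

theorem r0 (h : c.v 2 1 + c.X 0 1 2 ≤ 20) : (rel 0).holds c := by
  refine mk2 1 9 1 1 20 rfl ?_
  change ((1 : ℤ) : ℝ) * c.v 2 1 + ((1 : ℤ) : ℝ) * c.X 0 1 2 ≤ ((20 : ℤ) : ℝ)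
  push_cast
  linarith only [h]
theorem r1 (h : c.v 3 1 + c.X 0 1 3 ≤ 20) : (rel 1).holds c := by
  refine mk2 5 10 1 1 20 rfl ?_
  change ((1 : ℤ) : ℝ) * c.v 3 1 + ((1 : ℤ) : ℝ) * c.X 0 1 3 ≤ ((20 : ℤ) : ℝ)
  push_cast
  linarith only [h]
theorem r2 (h : c.v 3 2 + c.X 0 2 3 ≤ 20) : (rel 2).holds c := by
  refine mk2 6 14 1 1 20 rfl ?_
  change ((1 : ℤ) : ℝ) * c.v 3 2 + ((1 : ℤ) : ℝ) * c.X 0 2 3 ≤ ((20 : ℤ) : ℝ)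
  push_cast
  linarith only [h]
theorem r3 (h : c.v 2 3 + c.X 0 3 2 ≤ 20) : (rel 3).holds c := by
  refine mk2 2 18 1 1 20 rfl ?_
  change ((1 : ℤ) : ℝ) * c.v 2 3 + ((1 : ℤ) : ℝ) * c.X 0 3 2 ≤ ((20 : ℤ) : ℝ)
  push_cast
  linarith only [h]
theorem r4 (h : c.v 2 0 + c.X 1 0 2 ≤ 20) : (rel 4).holds c := by
  refine mk2 0 21 1 1 20 rfl ?_
  change ((1 : ℤ) : ℝ) * c.v 2 0 + ((1 : ℤ) : ℝ) * c.X 1 0 2 ≤ ((20 : ℤ) : ℝ)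
  push_cast
  linarith only [h]
theorem r5 (h : c.v 3 0 + c.X 1 0 3 ≤ 20) : (rel 5).holds c := by
  refine mk2 4 22 1 1 20 rfl ?_
  change ((1 : ℤ) : ℝ) * c.v 3 0 + ((1 : ℤ) : ℝ) * c.X 1 0 3 ≤ ((20 : ℤ) : ℝ)
  push_cast
  linarith only [h]
theorem r6 (h : c.v 3 2 + c.X 1 2 3 ≤ 20) : (rel 6).holds c := by
  refine mk2 6 26 1 1 20 rfl ?_
  change ((1 : ℤ) : ℝ) * c.v 3 2 + ((1 : ℤ) : ℝ) * c.X 1 2 3 ≤ ((20 : ℤ) : ℝ)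
  push_cast
  linarith only [h]
theorem r7 (h : c.v 2 3 + c.X 1 3 2 ≤ 20) : (rel 7).holds c := by
  refine mk2 2 30 1 1 20 rfl ?_
  change ((1 : ℤ) : ℝ) * c.v 2 3 + ((1 : ℤ) : ℝ) * c.X 1 3 2 ≤ ((20 : ℤ) : ℝ)
  push_cast
  linarith only [h]
theorem r8 (h : c.v 2 1 + c.v 2 3 - c.v 2 0 - 2 * c.D 0 1 ≤ -20) : (rel 8).holds c := by
  refine mk4 1 2 0 11 1 1 (-1) (-2) (-20) rfl ?_
  change ((1 : ℤ) : ℝ) * c.v 2 1 + ((1 : ℤ) : ℝ) * c.v 2 3 + ((-1 : ℤ) : ℝ) * c.v 2 0 + ((-2 : ℤ) : ℝ) * c.D 0 1 ≤ ((-20 : ℤ) : ℝ)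
  push_cast
  linarith only [h]
theorem r9 (h : c.v 3 1 + c.v 3 2 - c.v 3 0 - 2 * c.D 0 1 ≤ -20) : (rel 9).holds c := by
  refine mk4 5 6 4 11 1 1 (-1) (-2) (-20) rfl ?_
  change ((1 : ℤ) : ℝ) * c.v 3 1 + ((1 : ℤ) : ℝ) * c.v 3 2 + ((-1 : ℤ) : ℝ) * c.v 3 0 + ((-2 : ℤ) : ℝ) * c.D 0 1 ≤ ((-20 : ℤ) : ℝ)
  push_cast
  linarith only [h]
theorem r10 (h : c.v 3 2 + c.v 3 1 - c.v 3 0 - 2 * c.D 0 2 ≤ -20) : (rel 10).holds c := by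
  refine mk4 6 5 4 15 1 1 (-1) (-2) (-20) rfl ?_
  change ((1 : ℤ) : ℝ) * c.v 3 2 + ((1 : ℤ) : ℝ) * c.v 3 1 + ((-1 : ℤ) : ℝ) * c.v 3 0 + ((-2 : ℤ) : ℝ) * c.D 0 2 ≤ ((-20 : ℤ) : ℝ)
  push_cast
  linarith only [h]
theorem r11 (h : c.v 2 3 + c.v 2 1 - c.v 2 0 - 2 * c.D 0 3 ≤ -20) : (rel 11).holds c := by
  refine mk4 2 1 0 19 1 1 (-1) (-2) (-20) rfl ?_
  change ((1 : ℤ) : ℝ) * c.v 2 3 + ((1 : ℤ) : ℝ) * c.v 2 1 + ((-1 : ℤ) : ℝ) * c.v 2 0 + ((-2 : ℤ) : ℝ) * c.D 0 3 ≤ ((-20 : ℤ) : ℝ)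
  push_cast
  linarith only [h]
theorem r12 (h : c.v 2 0 + c.v 2 3 - c.v 2 1 - 2 * c.D 1 0 ≤ -20) : (rel 12).holds c := by
  refine mk4 0 2 1 23 1 1 (-1) (-2) (-20) rfl ?_
  change ((1 : ℤ) : ℝ) * c.v 2 0 + ((1 : ℤ) : ℝ) * c.v 2 3 + ((-1 : ℤ) : ℝ) * c.v 2 1 + ((-2 : ℤ) : ℝ) * c.D 1 0 ≤ ((-20 : ℤ) : ℝ)
  push_cast
  linarith only [h]
theorem r13 (h : c.v 3 0 + c.v 3 2 - c.v 3 1 - 2 * c.D 1 0 ≤ -20) : (rel 13).holds c := by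
  refine mk4 4 6 5 23 1 1 (-1) (-2) (-20) rfl ?_
  change ((1 : ℤ) : ℝ) * c.v 3 0 + ((1 : ℤ) : ℝ) * c.v 3 2 + ((-1 : ℤ) : ℝ) * c.v 3 1 + ((-2 : ℤ) : ℝ) * c.D 1 0 ≤ ((-20 : ℤ) : ℝ)
  push_cast
  linarith only [h]
theorem r14 (h : c.v 3 2 + c.v 3 0 - c.v 3 1 - 2 * c.D 1 2 ≤ -20) : (rel 14).holds c := by
  refine mk4 6 4 5 27 1 1 (-1) (-2) (-20) rfl ?_
  change ((1 : ℤ) : ℝ) * c.v 3 2 + ((1 : ℤ) : ℝ) * c.v 3 0 + ((-1 : ℤ) : ℝ) * c.v 3 1 + ((-2 : ℤ) : ℝ) * c.D 1 2 ≤ ((-20 : ℤ) : ℝ)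
  push_cast
  linarith only [h]
theorem r15 (h : c.v 2 3 + c.v 2 0 - c.v 2 1 - 2 * c.D 1 3 ≤ -20) : (rel 15).holds c := by
  refine mk4 2 0 1 31 1 1 (-1) (-2) (-20) rfl ?_
  change ((1 : ℤ) : ℝ) * c.v 2 3 + ((1 : ℤ) : ℝ) * c.v 2 0 + ((-1 : ℤ) : ℝ) * c.v 2 1 + ((-2 : ℤ) : ℝ) * c.D 1 3 ≤ ((-20 : ℤ) : ℝ)
  push_cast
  linarith only [h]
theorem r16 (h : -c.v 2 1 - c.X 0 1 2 ≤ -20) : (rel 16).holds c := by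
  refine mk2 1 9 (-1) (-1) (-20) rfl ?_
  change ((-1 : ℤ) : ℝ) * c.v 2 1 + ((-1 : ℤ) : ℝ) * c.X 0 1 2 ≤ ((-20 : ℤ) : ℝ)
  push_cast
  linarith only [h]
theorem r17 (h : -c.v 3 1 - c.X 0 1 3 ≤ -20) : (rel 17).holds c := by
  refine mk2 5 10 (-1) (-1) (-20) rfl ?_
  change ((-1 : ℤ) : ℝ) * c.v 3 1 + ((-1 : ℤ) : ℝ) * c.X 0 1 3 ≤ ((-20 : ℤ) : ℝ)
  push_cast
  linarith only [h]
theorem r18 (h : -c.v 3 2 - c.X 0 2 3 ≤ -20) : (rel 18).holds c := by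
  refine mk2 6 14 (-1) (-1) (-20) rfl ?_
  change ((-1 : ℤ) : ℝ) * c.v 3 2 + ((-1 : ℤ) : ℝ) * c.X 0 2 3 ≤ ((-20 : ℤ) : ℝ)
  push_cast
  linarith only [h]
theorem r19 (h : -c.v 2 3 - c.X 0 3 2 ≤ -20) : (rel 19).holds c := by
  refine mk2 2 18 (-1) (-1) (-20) rfl ?_
  change ((-1 : ℤ) : ℝ) * c.v 2 3 + ((-1 : ℤ) : ℝ) * c.X 0 3 2 ≤ ((-20 : ℤ) : ℝ)
  push_cast
  linarith only [h]
theorem r20 (h : -c.v 2 0 - c.X 1 0 2 ≤ -20) : (rel 20).holds c := by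
  refine mk2 0 21 (-1) (-1) (-20) rfl ?_
  change ((-1 : ℤ) : ℝ) * c.v 2 0 + ((-1 : ℤ) : ℝ) * c.X 1 0 2 ≤ ((-20 : ℤ) : ℝ)
  push_cast
  linarith only [h]
theorem r21 (h : -c.v 3 0 - c.X 1 0 3 ≤ -20) : (rel 21).holds c := by
  refine mk2 4 22 (-1) (-1) (-20) rfl ?_
  change ((-1 : ℤ) : ℝ) * c.v 3 0 + ((-1 : ℤ) : ℝ) * c.X 1 0 3 ≤ ((-20 : ℤ) : ℝ)
  push_cast
  linarith only [h]
theorem r22 (h : -c.v 3 2 - c.X 1 2 3 ≤ -20) : (rel 22).holds c := by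
  refine mk2 6 26 (-1) (-1) (-20) rfl ?_
  change ((-1 : ℤ) : ℝ) * c.v 3 2 + ((-1 : ℤ) : ℝ) * c.X 1 2 3 ≤ ((-20 : ℤ) : ℝ)
  push_cast
  linarith only [h]
theorem r23 (h : -c.v 2 3 - c.X 1 3 2 ≤ -20) : (rel 23).holds c := by
  refine mk2 2 30 (-1) (-1) (-20) rfl ?_
  change ((-1 : ℤ) : ℝ) * c.v 2 3 + ((-1 : ℤ) : ℝ) * c.X 1 3 2 ≤ ((-20 : ℤ) : ℝ)
  push_cast
  linarith only [h]
theorem r24 (h : c.v 3 0 + c.v 2 1 ≤ 0) : (rel 24).holds c := by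
  refine mk2 4 1 1 1 0 rfl ?_
  change ((1 : ℤ) : ℝ) * c.v 3 0 + ((1 : ℤ) : ℝ) * c.v 2 1 ≤ ((0 : ℤ) : ℝ)
  push_cast
  linarith only [h]
theorem r25 (h : c.v 2 0 + c.v 3 1 ≤ 0) : (rel 25).holds c := by
  refine mk2 0 5 1 1 0 rfl ?_
  change ((1 : ℤ) : ℝ) * c.v 2 0 + ((1 : ℤ) : ℝ) * c.v 3 1 ≤ ((0 : ℤ) : ℝ)
  push_cast
  linarith only [h]
theorem r26 (h : 2 * c.v 3 0 + 2 * c.v 3 1 + c.e 3 - c.e 2 ≤ 0) : (rel 26).holds c := by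
  refine mk4 4 5 7 3 2 2 1 (-1) 0 rfl ?_
  change ((2 : ℤ) : ℝ) * c.v 3 0 + ((2 : ℤ) : ℝ) * c.v 3 1 + ((1 : ℤ) : ℝ) * c.e 3 + ((-1 : ℤ) : ℝ) * c.e 2 ≤ ((0 : ℤ) : ℝ)
  push_cast
  linarith only [h]
theorem r27 (h : 2 * c.v 2 0 + 2 * c.v 2 1 + c.e 2 - c.e 3 ≤ 0) : (rel 27).holds c := by
  refine mk4 0 1 3 7 2 2 1 (-1) 0 rfl ?_
  change ((2 : ℤ) : ℝ) * c.v 2 0 + ((2 : ℤ) : ℝ) * c.v 2 1 + ((1 : ℤ) : ℝ) * c.e 2 + ((-1 : ℤ) : ℝ) * c.e 3 ≤ ((0 : ℤ) : ℝ)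
  push_cast
  linarith only [h]
theorem r28 (h : 2 * c.v 3 0 + c.e 3 - 2 * c.v 2 0 - c.e 2 ≤ 0) : (rel 28).holds c := by
  refine mk4 4 7 0 3 2 1 (-2) (-1) 0 rfl ?_
  change ((2 : ℤ) : ℝ) * c.v 3 0 + ((1 : ℤ) : ℝ) * c.e 3 + ((-2 : ℤ) : ℝ) * c.v 2 0 + ((-1 : ℤ) : ℝ) * c.e 2 ≤ ((0 : ℤ) : ℝ)
  push_cast
  linarith only [h]
theorem r29 (h : 2 * c.v 2 0 + c.e 2 - 2 * c.v 3 0 - c.e 3 ≤ 0) : (rel 29).holds c := by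
  refine mk4 0 3 4 7 2 1 (-2) (-1) 0 rfl ?_
  change ((2 : ℤ) : ℝ) * c.v 2 0 + ((1 : ℤ) : ℝ) * c.e 2 + ((-2 : ℤ) : ℝ) * c.v 3 0 + ((-1 : ℤ) : ℝ) * c.e 3 ≤ ((0 : ℤ) : ℝ)
  push_cast
  linarith only [h]
theorem r30 (h : 2 * c.v 3 1 + c.e 3 - 2 * c.v 2 1 - c.e 2 ≤ 0) : (rel 30).holds c := by
  refine mk4 5 7 1 3 2 1 (-2) (-1) 0 rfl ?_
  change ((2 : ℤ) : ℝ) * c.v 3 1 + ((1 : ℤ) : ℝ) * c.e 3 + ((-2 : ℤ) : ℝ) * c.v 2 1 + ((-1 : ℤ) : ℝ) * c.e 2 ≤ ((0 : ℤ) : ℝ)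
  push_cast
  linarith only [h]
theorem r31 (h : 2 * c.v 2 1 + c.e 2 - 2 * c.v 3 1 - c.e 3 ≤ 0) : (rel 31).holds c := by
  refine mk4 1 3 5 7 2 1 (-2) (-1) 0 rfl ?_
  change ((2 : ℤ) : ℝ) * c.v 2 1 + ((1 : ℤ) : ℝ) * c.e 2 + ((-2 : ℤ) : ℝ) * c.v 3 1 + ((-1 : ℤ) : ℝ) * c.e 3 ≤ ((0 : ℤ) : ℝ)
  push_cast
  linarith only [h]
theorem r32 (h : c.X 0 1 3 + c.w 0 2 ≤ 20) : (rel 32).holds c := by
  refine mk2 10 12 1 1 20 rfl ?_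
  change ((1 : ℤ) : ℝ) * c.X 0 1 3 + ((1 : ℤ) : ℝ) * c.w 0 2 ≤ ((20 : ℤ) : ℝ)
  push_cast
  linarith only [h]
theorem r33 (h : c.X 0 2 3 + c.w 0 1 ≤ 20) : (rel 33).holds c := by
  refine mk2 14 8 1 1 20 rfl ?_
  change ((1 : ℤ) : ℝ) * c.X 0 2 3 + ((1 : ℤ) : ℝ) * c.w 0 1 ≤ ((20 : ℤ) : ℝ)
  push_cast
  linarith only [h]
theorem r34 (h : c.X 0 1 2 + c.w 0 3 ≤ 20) : (rel 34).holds c := by
  refine mk2 9 16 1 1 20 rfl ?_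
  change ((1 : ℤ) : ℝ) * c.X 0 1 2 + ((1 : ℤ) : ℝ) * c.w 0 3 ≤ ((20 : ℤ) : ℝ)
  push_cast
  linarith only [h]
theorem r35 (h : c.X 0 3 2 + c.w 0 1 ≤ 20) : (rel 35).holds c := by
  refine mk2 18 8 1 1 20 rfl ?_
  change ((1 : ℤ) : ℝ) * c.X 0 3 2 + ((1 : ℤ) : ℝ) * c.w 0 1 ≤ ((20 : ℤ) : ℝ)
  push_cast
  linarith only [h]
theorem r36 (h : c.X 0 2 1 + c.w 0 3 ≤ 20) : (rel 36).holds c := by
  refine mk2 13 16 1 1 20 rfl ?_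
  change ((1 : ℤ) : ℝ) * c.X 0 2 1 + ((1 : ℤ) : ℝ) * c.w 0 3 ≤ ((20 : ℤ) : ℝ)
  push_cast
  linarith only [h]
theorem r37 (h : c.X 0 3 1 + c.w 0 2 ≤ 20) : (rel 37).holds c := by
  refine mk2 17 12 1 1 20 rfl ?_
  change ((1 : ℤ) : ℝ) * c.X 0 3 1 + ((1 : ℤ) : ℝ) * c.w 0 2 ≤ ((20 : ℤ) : ℝ)
  push_cast
  linarith only [h]
theorem r38 (h : c.X 1 0 3 + c.w 1 2 ≤ 20) : (rel 38).holds c := by
  refine mk2 22 24 1 1 20 rfl ?_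
  change ((1 : ℤ) : ℝ) * c.X 1 0 3 + ((1 : ℤ) : ℝ) * c.w 1 2 ≤ ((20 : ℤ) : ℝ)
  push_cast
  linarith only [h]
theorem r39 (h : c.X 1 2 3 + c.w 1 0 ≤ 20) : (rel 39).holds c := by
  refine mk2 26 20 1 1 20 rfl ?_
  change ((1 : ℤ) : ℝ) * c.X 1 2 3 + ((1 : ℤ) : ℝ) * c.w 1 0 ≤ ((20 : ℤ) : ℝ)
  push_cast
  linarith only [h]
theorem r40 (h : c.X 1 0 2 + c.w 1 3 ≤ 20) : (rel 40).holds c := by
  refine mk2 21 28 1 1 20 rfl ?_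
  change ((1 : ℤ) : ℝ) * c.X 1 0 2 + ((1 : ℤ) : ℝ) * c.w 1 3 ≤ ((20 : ℤ) : ℝ)
  push_cast
  linarith only [h]
theorem r41 (h : c.X 1 3 2 + c.w 1 0 ≤ 20) : (rel 41).holds c := by
  refine mk2 30 20 1 1 20 rfl ?_
  change ((1 : ℤ) : ℝ) * c.X 1 3 2 + ((1 : ℤ) : ℝ) * c.w 1 0 ≤ ((20 : ℤ) : ℝ)
  push_cast
  linarith only [h]
theorem r42 (h : c.X 1 2 0 + c.w 1 3 ≤ 20) : (rel 42).holds c := by
  refine mk2 25 28 1 1 20 rfl ?_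
  change ((1 : ℤ) : ℝ) * c.X 1 2 0 + ((1 : ℤ) : ℝ) * c.w 1 3 ≤ ((20 : ℤ) : ℝ)
  push_cast
  linarith only [h]
theorem r43 (h : c.X 1 3 0 + c.w 1 2 ≤ 20) : (rel 43).holds c := by
  refine mk2 29 24 1 1 20 rfl ?_
  change ((1 : ℤ) : ℝ) * c.X 1 3 0 + ((1 : ℤ) : ℝ) * c.w 1 2 ≤ ((20 : ℤ) : ℝ)
  push_cast
  linarith only [h]
theorem r44 (h : c.X 0 2 1 + c.X 1 3 0 ≤ 40) : (rel 44).holds c := by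
  refine mk2 13 29 1 1 40 rfl ?_
  change ((1 : ℤ) : ℝ) * c.X 0 2 1 + ((1 : ℤ) : ℝ) * c.X 1 3 0 ≤ ((40 : ℤ) : ℝ)
  push_cast
  linarith only [h]
theorem r45 (h : c.X 0 3 1 + c.X 1 2 0 ≤ 40) : (rel 45).holds c := by
  refine mk2 17 25 1 1 40 rfl ?_
  change ((1 : ℤ) : ℝ) * c.X 0 3 1 + ((1 : ℤ) : ℝ) * c.X 1 2 0 ≤ ((40 : ℤ) : ℝ)
  push_cast
  linarith only [h]
theorem r46 (h : c.X 0 2 1 - c.D 1 2 ≤ 0) : (rel 46).holds c := by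
  refine mk2 13 27 1 (-1) 0 rfl ?_
  change ((1 : ℤ) : ℝ) * c.X 0 2 1 + ((-1 : ℤ) : ℝ) * c.D 1 2 ≤ ((0 : ℤ) : ℝ)
  push_cast
  linarith only [h]
theorem r47 (h : c.X 1 2 0 - c.D 0 2 ≤ 0) : (rel 47).holds c := by
  refine mk2 25 15 1 (-1) 0 rfl ?_
  change ((1 : ℤ) : ℝ) * c.X 1 2 0 + ((-1 : ℤ) : ℝ) * c.D 0 2 ≤ ((0 : ℤ) : ℝ)
  push_cast
  linarith only [h]
theorem r48 (h : c.X 0 3 1 - c.D 1 3 ≤ 0) : (rel 48).holds c := by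
  refine mk2 17 31 1 (-1) 0 rfl ?_
  change ((1 : ℤ) : ℝ) * c.X 0 3 1 + ((-1 : ℤ) : ℝ) * c.D 1 3 ≤ ((0 : ℤ) : ℝ)
  push_cast
  linarith only [h]
theorem r49 (h : c.X 1 3 0 - c.D 0 3 ≤ 0) : (rel 49).holds c := by
  refine mk2 29 19 1 (-1) 0 rfl ?_
  change ((1 : ℤ) : ℝ) * c.X 1 3 0 + ((-1 : ℤ) : ℝ) * c.D 0 3 ≤ ((0 : ℤ) : ℝ)
  push_cast
  linarith only [h]
theorem r50 (h : c.w 0 2 - c.w 1 2 ≤ 0) : (rel 50).holds c := by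
  refine mk2 12 24 1 (-1) 0 rfl ?_
  change ((1 : ℤ) : ℝ) * c.w 0 2 + ((-1 : ℤ) : ℝ) * c.w 1 2 ≤ ((0 : ℤ) : ℝ)
  push_cast
  linarith only [h]
theorem r51 (h : c.X 0 2 1 - c.D 1 2 - c.w 1 2 ≤ -20) : (rel 51).holds c := by
  refine mk3 13 27 24 1 (-1) (-1) (-20) rfl ?_
  change ((1 : ℤ) : ℝ) * c.X 0 2 1 + ((-1 : ℤ) : ℝ) * c.D 1 2 + ((-1 : ℤ) : ℝ) * c.w 1 2 ≤ ((-20 : ℤ) : ℝ)
  push_cast
  linarith only [h]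
theorem r52 (h : c.X 1 2 0 - c.D 0 2 - c.w 1 2 ≤ -20) : (rel 52).holds c := by
  refine mk3 25 15 24 1 (-1) (-1) (-20) rfl ?_
  change ((1 : ℤ) : ℝ) * c.X 1 2 0 + ((-1 : ℤ) : ℝ) * c.D 0 2 + ((-1 : ℤ) : ℝ) * c.w 1 2 ≤ ((-20 : ℤ) : ℝ)
  push_cast
  linarith only [h]
theorem r53 (h : c.w 1 2 - c.w 0 2 ≤ 0) : (rel 53).holds c := by
  refine mk2 24 12 1 (-1) 0 rfl ?_
  change ((1 : ℤ) : ℝ) * c.w 1 2 + ((-1 : ℤ) : ℝ) * c.w 0 2 ≤ ((0 : ℤ) : ℝ)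
  push_cast
  linarith only [h]
theorem r54 (h : c.X 0 2 1 - c.D 1 2 - c.w 0 2 ≤ -20) : (rel 54).holds c := by
  refine mk3 13 27 12 1 (-1) (-1) (-20) rfl ?_
  change ((1 : ℤ) : ℝ) * c.X 0 2 1 + ((-1 : ℤ) : ℝ) * c.D 1 2 + ((-1 : ℤ) : ℝ) * c.w 0 2 ≤ ((-20 : ℤ) : ℝ)
  push_cast
  linarith only [h]
theorem r55 (h : c.X 1 2 0 - c.D 0 2 - c.w 0 2 ≤ -20) : (rel 55).holds c := by
  refine mk3 25 15 12 1 (-1) (-1) (-20) rfl ?_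
  change ((1 : ℤ) : ℝ) * c.X 1 2 0 + ((-1 : ℤ) : ℝ) * c.D 0 2 + ((-1 : ℤ) : ℝ) * c.w 0 2 ≤ ((-20 : ℤ) : ℝ)
  push_cast
  linarith only [h]
theorem r56 (h : c.w 0 3 - c.w 1 3 ≤ 0) : (rel 56).holds c := by
  refine mk2 16 28 1 (-1) 0 rfl ?_
  change ((1 : ℤ) : ℝ) * c.w 0 3 + ((-1 : ℤ) : ℝ) * c.w 1 3 ≤ ((0 : ℤ) : ℝ)
  push_cast
  linarith only [h]
theorem r57 (h : c.X 0 3 1 - c.D 1 3 - c.w 1 3 ≤ -20) : (rel 57).holds c := by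
  refine mk3 17 31 28 1 (-1) (-1) (-20) rfl ?_
  change ((1 : ℤ) : ℝ) * c.X 0 3 1 + ((-1 : ℤ) : ℝ) * c.D 1 3 + ((-1 : ℤ) : ℝ) * c.w 1 3 ≤ ((-20 : ℤ) : ℝ)
  push_cast
  linarith only [h]
theorem r58 (h : c.X 1 3 0 - c.D 0 3 - c.w 1 3 ≤ -20) : (rel 58).holds c := by
  refine mk3 29 19 28 1 (-1) (-1) (-20) rfl ?_
  change ((1 : ℤ) : ℝ) * c.X 1 3 0 + ((-1 : ℤ) : ℝ) * c.D 0 3 + ((-1 : ℤ) : ℝ) * c.w 1 3 ≤ ((-20 : ℤ) : ℝ)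
  push_cast
  linarith only [h]
theorem r59 (h : c.w 1 3 - c.w 0 3 ≤ 0) : (rel 59).holds c := by
  refine mk2 28 16 1 (-1) 0 rfl ?_
  change ((1 : ℤ) : ℝ) * c.w 1 3 + ((-1 : ℤ) : ℝ) * c.w 0 3 ≤ ((0 : ℤ) : ℝ)
  push_cast
  linarith only [h]
theorem r60 (h : c.X 0 3 1 - c.D 1 3 - c.w 0 3 ≤ -20) : (rel 60).holds c := by
  refine mk3 17 31 16 1 (-1) (-1) (-20) rfl ?_
  change ((1 : ℤ) : ℝ) * c.X 0 3 1 + ((-1 : ℤ) : ℝ) * c.D 1 3 + ((-1 : ℤ) : ℝ) * c.w 0 3 ≤ ((-20 : ℤ) : ℝ)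
  push_cast
  linarith only [h]
theorem r61 (h : c.X 1 3 0 - c.D 0 3 - c.w 0 3 ≤ -20) : (rel 61).holds c := by
  refine mk3 29 19 16 1 (-1) (-1) (-20) rfl ?_
  change ((1 : ℤ) : ℝ) * c.X 1 3 0 + ((-1 : ℤ) : ℝ) * c.D 0 3 + ((-1 : ℤ) : ℝ) * c.w 0 3 ≤ ((-20 : ℤ) : ℝ)
  push_cast
  linarith only [h]
theorem r62 (h : 25 * c.e 2 + 25 * c.e 3 ≤ 226) : (rel 62).holds c := by
  refine mk2 3 7 25 25 226 rfl ?_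
  change ((25 : ℤ) : ℝ) * c.e 2 + ((25 : ℤ) : ℝ) * c.e 3 ≤ ((226 : ℤ) : ℝ)
  push_cast
  linarith only [h]

end

end Pool.Agent.Helper53.NE
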